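import Pool.Agent.H753Z.GN.Defs

/-! Project GN: the divisor bound and a lower bound for the totient. -/

set_option autoImplicit false

namespace Pool.Agent.H753Z.GN

open Finset Filter

/-- the divisor bound -/
theorem div_bound (δ : ℝ) (hδ : 0 < δ) :
    ∃ C : ℝ, 0 < C ∧ ∀ n : ℕ, n ≠ 0 → ((n.divisors.card : ℕ) : ℝ) ≤ C * (n : ℝ) ^ δ := by
  have hlog : 0 < Real.log 2 := Real.log_pos (by norm_num)
  have hδl : 0 < δ * Real.log 2 := mul_pos hδ hlog
  set M : ℝ := max 1 (1 / (δ * Real.log 2)) with hM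
  have hM1 : 1 ≤ M := le_max_left _ _
  have hM2 : 1 ≤ M * (δ * Real.log 2) := by
    have : 1 / (δ * Real.log 2) ≤ M := le_max_right _ _
    calc (1 : ℝ) = 1 / (δ * Real.log 2) * (δ * Real.log 2) := by
          field_simp
      _ ≤ M * (δ * Real.log 2) := mul_le_mul_of_nonneg_right this hδl.le
  set K : ℕ := ⌈(2 : ℝ) ^ (1 / δ)⌉₊ with hK
  have hKle : (2 : ℝ) ^ (1 / δ) ≤ (K : ℝ) := Nat.le_ceil _
  refine ⟨M ^ K, by positivity, ?_⟩
  intro n hn
  have hbase : ∀ p ∈ n.primeFactors, (((n.factorization p + 1 : ℕ)) : ℝ) ≤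
      (if p < K then M else 1) * (((p : ℝ) ^ (n.factorization p)) ^ δ) := by
    intro p hp
    have hpp : p.Prime := Nat.prime_of_mem_primeFactors hp
    set a := n.factorization p with ha
    have hp2 : (2 : ℝ) ≤ (p : ℝ) := by exact_mod_cast hpp.two_le
    have hp0 : (0 : ℝ) ≤ (p : ℝ) := by positivity
    have hpow : (((p : ℝ) ^ a) ^ δ) = ((p : ℝ) ^ δ) ^ a := by
      rw [← Real.rpow_natCast (p : ℝ) a, ← Real.rpow_mul hp0, ← Real.rpow_natCast ((p : ℝ) ^ δ) a,
        ← Real.rpow_mul hp0, mul_comm]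
    rw [hpow]
    split_ifs with hlt
    · have h1 : (2 : ℝ) ^ δ ≤ (p : ℝ) ^ δ := Real.rpow_le_rpow (by norm_num) hp2 hδ.le
      have h2 : ((2 : ℝ) ^ δ) ^ a ≤ ((p : ℝ) ^ δ) ^ a :=
        pow_le_pow_left₀ (by positivity) h1 a
      have h3 : 1 + (a : ℝ) * (δ * Real.log 2) ≤ ((2 : ℝ) ^ δ) ^ a := by
        have : ((2 : ℝ) ^ δ) ^ a = Real.exp ((a : ℝ) * (δ * Real.log 2)) := by
          rw [← Real.rpow_natCast, ← Real.rpow_mul (by norm_num), Real.rpow_def_of_pos (by norm_num)]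
          congr 1; ring
        rw [this]
        have := Real.add_one_le_exp ((a : ℝ) * (δ * Real.log 2))
        linarith
      have h4 : (((a + 1 : ℕ)) : ℝ) ≤ M * (1 + (a : ℝ) * (δ * Real.log 2)) := by
        push_cast
        have ha0 : (0 : ℝ) ≤ (a : ℝ) := by positivity
        nlinarith [mul_le_mul_of_nonneg_left hM2 ha0]
      calc (((a + 1 : ℕ)) : ℝ) ≤ M * (1 + (a : ℝ) * (δ * Real.log 2)) := h4
        _ ≤ M * (((p : ℝ) ^ δ) ^ a) :=
          mul_le_mul_of_nonneg_left (h3.trans h2) (by linarith)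
    · have hKp : (K : ℝ) ≤ (p : ℝ) := by exact_mod_cast not_lt.mp hlt
      have h1 : (2 : ℝ) ≤ (p : ℝ) ^ δ := by
        have h5 : ((2 : ℝ) ^ (1 / δ)) ^ δ ≤ (p : ℝ) ^ δ :=
          Real.rpow_le_rpow (by positivity) (hKle.trans hKp) hδ.le
        have h6 : ((2 : ℝ) ^ (1 / δ)) ^ δ = 2 := by
          rw [← Real.rpow_mul (by norm_num)]
          rw [one_div, inv_mul_cancel₀ hδ.ne', Real.rpow_one]
        rwa [h6] at h5
      have h2 : (2 : ℝ) ^ a ≤ ((p : ℝ) ^ δ) ^ a := pow_le_pow_left₀ (by norm_num) h1 a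
      have h3 : (((a + 1 : ℕ)) : ℝ) ≤ (2 : ℝ) ^ a := by
        have : a + 1 ≤ 2 ^ a := Nat.lt_two_pow_self
        exact_mod_cast this
      rw [one_mul]
      exact h3.trans h2
  have hn' : (n : ℝ) ^ δ = ∏ p ∈ n.primeFactors, (((p : ℝ) ^ (n.factorization p)) ^ δ) := by
    rw [Real.finsetProd_rpow _ _ (fun i _ => by positivity)]
    congr 1
    have := Nat.prod_factorization_pow_eq_self hn
    conv_lhs => rw [← this]
    rw [Finsupp.prod]
    push_cast
    rfl
  rw [Nat.card_divisors hn]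
  push_cast
  calc (∏ p ∈ n.primeFactors, ((n.factorization p : ℝ) + 1))
      ≤ ∏ p ∈ n.primeFactors, ((if p < K then M else 1) * (((p : ℝ) ^ (n.factorization p)) ^ δ)) := by
        apply Finset.prod_le_prod
        · intro i _; positivity
        · intro i hi
          have := hbase i hi
          push_cast at this
          exact this
    _ = (∏ p ∈ n.primeFactors, (if p < K then M else 1)) * (n : ℝ) ^ δ := by
        rw [Finset.prod_mul_distrib, hn']
    _ ≤ M ^ K * (n : ℝ) ^ δ := by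
        apply mul_le_mul_of_nonneg_right _ (by positivity)
        rw [Finset.prod_ite, Finset.prod_const, Finset.prod_const_one, mul_one]
        apply pow_le_pow_right₀ hM1
        calc (n.primeFactors.filter (fun p => p < K)).card ≤ (Finset.range K).card := by
              apply Finset.card_le_card
              intro x hx
              simp only [Finset.mem_filter] at hx
              exact Finset.mem_range.mpr hx.2
          _ = K := Finset.card_range K

/-- the divisor bound, eventual form -/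
theorem div_ev (ε : ℝ) (hε : 0 < ε) : ∀ᶠ N : ℕ in atTop, ∀ n : ℕ, 1 ≤ n → n ≤ 8 * N →
    (n.divisors.card : ℝ) ≤ (N : ℝ) ^ ε := by
  obtain ⟨C, hC, h⟩ := div_bound (ε / 2) (by positivity)
  have h1 : ∀ᶠ N : ℕ in atTop, C * (8 : ℝ) ^ (ε / 2) ≤ (N : ℝ) ^ (ε / 2) :=
    ((tendsto_rpow_atTop (by positivity : 0 < ε / 2)).comp
      tendsto_natCast_atTop_atTop).eventually_ge_atTop _
  filter_upwards [h1, eventually_ge_atTop 1] with N hN hN1 n hn1 hn
  have hN0 : (0 : ℝ) < N := by exact_mod_cast hN1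
  have h2 : (n : ℝ) ^ (ε / 2) ≤ (8 : ℝ) ^ (ε / 2) * (N : ℝ) ^ (ε / 2) := by
    rw [← Real.mul_rpow (by norm_num) hN0.le]
    exact Real.rpow_le_rpow (Nat.cast_nonneg _) (by exact_mod_cast hn) (by positivity)
  have h3 : (N : ℝ) ^ ε = (N : ℝ) ^ (ε / 2) * (N : ℝ) ^ (ε / 2) := by
    rw [← Real.rpow_add hN0]; ring_nf
  calc (n.divisors.card : ℝ) ≤ C * (n : ℝ) ^ (ε / 2) := h n (by omega)
    _ ≤ C * ((8 : ℝ) ^ (ε / 2) * (N : ℝ) ^ (ε / 2)) := by gcongr
    _ = (C * (8 : ℝ) ^ (ε / 2)) * (N : ℝ) ^ (ε / 2) := by ring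
    _ ≤ _ := by rw [h3]; gcongr

theorem prod_lower (S : Finset ℕ) (hS : ∀ p ∈ S, 2 ≤ p) :
    1 / ((S.card : ℝ) + 1) ≤ ∏ p ∈ S, (1 - (p : ℝ)⁻¹) := by
  induction S using Finset.induction_on_max with
  | empty => simp
  | insert a S ha ih =>
    have hnot : a ∉ S := fun h => lt_irrefl _ (ha a h)
    have hcard : S.card + 2 ≤ a := by
      have hsub : S ⊆ Ico 2 a := by
        intro p hp
        rw [mem_Ico]
        exact ⟨hS p (mem_insert_of_mem hp), ha p hp⟩
      have := card_le_card hsub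
      rw [Nat.card_Ico] at this
      have := hS a (mem_insert_self a S)
      omega
    rw [prod_insert hnot, card_insert_of_notMem hnot]
    have h1 := ih (fun p hp => hS p (mem_insert_of_mem hp))
    have hc : ((S.card : ℝ) + 2) ≤ a := by exact_mod_cast hcard
    have hc0 : (0 : ℝ) ≤ S.card := by positivity
    have ha0 : (0 : ℝ) < a := by linarith
    have h2 : 1 - 1 / ((S.card : ℝ) + 2) ≤ 1 - (a : ℝ)⁻¹ := by
      have : (a : ℝ)⁻¹ ≤ 1 / ((S.card : ℝ) + 2) := by
        rw [one_div]; gcongr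
      linarith
    have h3 : 0 ≤ 1 - 1 / ((S.card : ℝ) + 2) := by
      rw [sub_nonneg, div_le_one (by linarith)]; linarith
    calc 1 / (((S.card + 1 : ℕ) : ℝ) + 1) = (1 - 1 / ((S.card : ℝ) + 2)) * (1 / ((S.card : ℝ) + 1)) := by
          push_cast
          field_simp
          ring
      _ ≤ (1 - (a : ℝ)⁻¹) * ∏ p ∈ S, (1 - (p : ℝ)⁻¹) :=
          mul_le_mul h2 h1 (by positivity) (h3.trans h2)

theorem tot_lower (k : ℕ) (hk : 1 ≤ k) : (k : ℝ) ≤ 2 * (1 + Real.log k) * (Nat.totient k : ℝ) := by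
  have h1 : (Nat.totient k : ℝ) = k * ∏ p ∈ k.primeFactors, (1 - (p : ℝ)⁻¹) := by
    have := Nat.totient_eq_mul_prod_factors k
    have h2 : (((Nat.totient k : ℕ) : ℚ) : ℝ) =
      (((k : ℚ) * ∏ p ∈ k.primeFactors, (1 - (p : ℚ)⁻¹) : ℚ) : ℝ) := by rw [this]
    push_cast at h2
    exact h2
  have h2 := prod_lower k.primeFactors (fun p hp => (Nat.prime_of_mem_primeFactors hp).two_le)
  have h3 : 2 ^ k.primeFactors.card ≤ k := by
    calc 2 ^ k.primeFactors.card ≤ ∏ p ∈ k.primeFactors, p :=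
          pow_card_le_prod _ _ _ (fun p hp => (Nat.prime_of_mem_primeFactors hp).two_le)
      _ ≤ k := Nat.le_of_dvd (by omega) (Nat.prod_primeFactors_dvd k)
  have hk0 : (0 : ℝ) < k := by exact_mod_cast hk
  have h4 : (k.primeFactors.card : ℝ) * Real.log 2 ≤ Real.log k := by
    have h5 : ((2 : ℝ) ^ k.primeFactors.card) ≤ k := by exact_mod_cast h3
    have h6 := Real.log_le_log (by positivity) h5
    rwa [Real.log_pow] at h6
  have h7 := Real.log_two_gt_d9
  have hlog : 0 ≤ Real.log k := Real.log_natCast_nonneg k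
  have hcard0 : (0 : ℝ) ≤ k.primeFactors.card := by positivity
  have h8 : (k.primeFactors.card : ℝ) + 1 ≤ 2 * (1 + Real.log k) := by nlinarith
  rw [h1]
  have h9 : 1 ≤ 2 * (1 + Real.log k) * ∏ p ∈ k.primeFactors, (1 - (p : ℝ)⁻¹) := by
    calc (1 : ℝ) = ((k.primeFactors.card : ℝ) + 1) * (1 / ((k.primeFactors.card : ℝ) + 1)) := by
          field_simp
      _ ≤ 2 * (1 + Real.log k) * ∏ p ∈ k.primeFactors, (1 - (p : ℝ)⁻¹) :=
          mul_le_mul h8 h2 (by positivity) (by positivity)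
  nlinarith

/-- the form used for large `N` -/
theorem tot_ge (N : ℕ) (hN : 1 ≤ N) (hL : 2 ≤ Real.log N) :
    (N : ℝ) ≤ 3 * Real.log N * (Nat.totient N : ℝ) := by
  refine (tot_lower N hN).trans ?_
  have : (0 : ℝ) ≤ Nat.totient N := Nat.cast_nonneg _
  nlinarith

end Pool.Agent.H753Z.GN
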