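import Pool.Agent.H753Z.GN.Ari

/-! Project GN: basic lemmas on the unit group. -/

set_option autoImplicit false

namespace Pool.Agent.H753Z.GN

open Finset Filter

open Pool.Agent.H753Z.SG (lam ff lam_mul lam_one lam_pm lam_sq card_primeFactors_le)

section

variable {N : ℕ} [NeZero N]

theorem mem_Un {x : ZMod N} : x ∈ Un N ↔ IsUnit x := by
  simp only [Un, mem_filter, mem_univ, true_and]
  rw [← ZMod.isUnit_iff_coprime, ZMod.natCast_zmod_val]

theorem card_Un : (Un N).card = Nat.totient N := by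
  rw [Nat.totient_eq_card_coprime]
  refine card_bij (fun x _ => x.val) ?_ ?_ ?_
  · intro x hx
    simp only [Un, mem_filter, mem_univ, true_and] at hx
    exact mem_filter.2 ⟨mem_range.2 (ZMod.val_lt x), hx.symm⟩
  · intro x _ y _ h
    exact ZMod.val_injective N h
  · intro a ha
    obtain ⟨h1, h2⟩ := mem_filter.1 ha
    have h3 := ZMod.val_cast_of_lt (mem_range.1 h1)
    refine ⟨(a : ZMod N), ?_, h3⟩
    simp only [Un, mem_filter, mem_univ, true_and]
    rw [h3]
    exact h2.symm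

omit [NeZero N] in
theorem isUnit_cast {n : ℕ} (h : n.Coprime N) : IsUnit (n : ZMod N) :=
  (ZMod.isUnit_iff_coprime n N).2 h

omit [NeZero N] in
theorem ff_castN {n : ℕ} (hn : n < N) : ff N (n : ZMod N) = lam n := by
  rw [ff, ZMod.val_cast_of_lt hn]

theorem ffU_pm (hN : 2 ≤ N) {x : ZMod N} (hx : IsUnit x) : ff N x = 1 ∨ ff N x = -1 := by
  refine lam_pm ?_
  rw [Ne, ZMod.val_eq_zero]
  rintro rfl
  haveI : Fact (1 < N) := ⟨hN⟩
  exact not_isUnit_zero hx

theorem mem_BadU {g x : ZMod N} {s : ℤ} :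
    x ∈ BadU N g s ↔ IsUnit x ∧ ff N (g * x) ≠ s * ff N x := by
  rw [BadU, mem_filter, mem_Un]

theorem BadU_sub (g : ZMod N) (s : ℤ) : BadU N g s ⊆ Un N := filter_subset _ _

theorem good_of_notMemU {g x : ZMod N} {s : ℤ} (hx : IsUnit x) (h : x ∉ BadU N g s) :
    ff N (g * x) = s * ff N x := by
  by_contra hne
  exact h (mem_BadU.2 ⟨hx, hne⟩)

/-- preimage of a set under the multiplication by a unit -/
theorem card_preU (E : Finset (ZMod N)) {h : ZMod N} (hh : IsUnit h) :
    (univ.filter fun x => h * x ∈ E).card = E.card := by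
  obtain ⟨k, hk⟩ := hh.exists_right_inv
  refine card_bij (fun x _ => h * x) ?_ ?_ ?_
  · intro x hx
    simpa using hx
  · intro x _ y _ hxy
    exact hh.mul_left_cancel hxy
  · intro y hy
    refine ⟨k * y, ?_, ?_⟩
    · simp only [mem_filter, mem_univ, true_and]
      rwa [← mul_assoc, hk, one_mul]
    · rw [← mul_assoc, hk, one_mul]

/-- the preimage of a set of units consists of units -/
theorem pre_sub_Un {E : Finset (ZMod N)} (hE : E ⊆ Un N) (h : ZMod N) :
    (univ.filter fun x => h * x ∈ E) ⊆ Un N := by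
  intro x hx
  have := mem_Un.1 (hE (mem_filter.1 hx).2)
  exact mem_Un.2 (isUnit_of_mul_isUnit_right this)

theorem card_BadU_mul (g : ZMod N) {h : ZMod N} (hh : IsUnit h) (s t : ℤ) :
    (BadU N (g * h) (s * t)).card ≤ (BadU N g s).card + (BadU N h t).card := by
  have hsub : BadU N (g * h) (s * t) ⊆
      (univ.filter fun x => h * x ∈ BadU N g s) ∪ BadU N h t := by
    intro x hx
    rw [mem_BadU] at hx
    by_contra hcon
    rw [mem_union, not_or] at hcon
    have h1 := good_of_notMemU hx.1 hcon.2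
    have h2 : h * x ∉ BadU N g s := by simpa using hcon.1
    have h3 := good_of_notMemU (hh.mul hx.1) h2
    apply hx.2
    rw [mul_assoc, h3, h1, mul_assoc]
  calc _ ≤ _ := card_le_card hsub
    _ ≤ _ := card_union_le _ _
    _ = _ := by rw [card_preU _ hh]

theorem card_BadU_add (hN : 2 ≤ N) (g : ZMod N) :
    Nat.totient N ≤ (BadU N g 1).card + (BadU N g (-1)).card := by
  rw [← card_Un (N := N)]
  refine le_trans (card_le_card ?_) (card_union_le _ _)
  intro x hx
  have hx0 := mem_Un.1 hx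
  by_contra hcon
  rw [mem_union, not_or] at hcon
  have h1 := good_of_notMemU hx0 hcon.1
  have h2 := good_of_notMemU hx0 hcon.2
  rcases ffU_pm hN hx0 with h | h <;> rw [h] at h1 h2 <;> omega

theorem card_BadU_inv {g g' : ZMod N} (hg : g * g' = 1) {s : ℤ} (hs : s = 1 ∨ s = -1) :
    (BadU N g' s).card ≤ (BadU N g s).card := by
  have hu : IsUnit g' := IsUnit.of_mul_eq_one_right _ hg
  rw [← card_preU (BadU N g s) hu]
  refine card_le_card ?_
  intro x hx
  rw [mem_BadU] at hx
  simp only [mem_filter, mem_univ, true_and, mem_BadU]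
  refine ⟨hu.mul hx.1, ?_⟩
  rw [← mul_assoc, hg, one_mul]
  intro h
  apply hx.2
  rw [h]
  rcases hs with rfl | rfl <;> ring

theorem card_BadU_one : (BadU N 1 1).card = 0 := by
  rw [card_eq_zero]
  ext x
  simp [mem_BadU]

theorem bu_one : bu N 1 = 0 := by
  rw [bu, lam_one, Nat.cast_one, card_BadU_one]

theorem bu_mul (m : ℕ) {n : ℕ} (hn : n.Coprime N) : bu N (m * n) ≤ bu N m + bu N n := by
  rw [bu, lam_mul, Nat.cast_mul]
  exact card_BadU_mul _ (isUnit_cast hn) _ _

theorem bu_le_Er (n : ℕ) : bu N n ≤ (Er N 1 n).card := by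
  refine card_le_card ?_
  intro x hx
  rw [mem_BadU] at hx
  simp only [Er, mem_filter, mem_univ, true_and, Nat.cast_one, one_mul]
  exact hx.2

/-- a number all of whose prime factors are good is good -/
theorem bu_le_of_primes (F : ℝ) (hF : 0 ≤ F) : ∀ n : ℕ, 1 ≤ n → n.Coprime N →
    (∀ r : ℕ, r.Prime → r ∣ n → (bu N r : ℝ) ≤ F) → (bu N n : ℝ) ≤ Nat.log 2 n * F := by
  intro n
  induction n using Nat.strong_induction_on with
  | _ n ih =>
    intro h1 hn hr
    rcases eq_or_lt_of_le h1 with h | h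
    · rw [← h, bu_one]
      simp
    · obtain ⟨r, hrp, m, hm⟩ : ∃ r, r.Prime ∧ r ∣ n := Nat.exists_prime_and_dvd (by omega)
      have hm0 : 1 ≤ m := Nat.pos_of_ne_zero (by rintro rfl; omega)
      have h2 := hrp.two_le
      have hmn : m < n := by rw [hm]; nlinarith
      have hmc : m.Coprime N := Nat.Coprime.coprime_dvd_left ⟨r, by rw [hm]; ring⟩ hn
      have h3 := ih m hmn hm0 hmc fun r' hr' hd => hr r' hr' (hm ▸ hd.mul_left r)
      have h4 := hr r hrp ⟨m, hm⟩
      have h5 : bu N n ≤ bu N r + bu N m := by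
        rw [hm]
        exact bu_mul r hmc
      have h6 : Nat.log 2 m + 1 ≤ Nat.log 2 n := by
        rw [← Nat.log_mul_base (by norm_num) (by omega)]
        apply Nat.log_mono_right
        rw [hm]
        nlinarith
      have h7 : ((Nat.log 2 m : ℕ) : ℝ) + 1 ≤ (Nat.log 2 n : ℕ) := by exact_mod_cast h6
      have h8 : (bu N n : ℝ) ≤ bu N r + bu N m := by exact_mod_cast h5
      nlinarith

/-- pairs (prime, cofactor) with the product in a given set of residues -/
theorem card_pairs_leU (Q I : Finset ℕ) (hQ : ∀ q ∈ Q, q.Prime)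
    (hI : ∀ m ∈ I, 1 ≤ m) (hlt : ∀ q ∈ Q, ∀ m ∈ I, q * m < N) (E : Finset (ZMod N)) :
    ((Q ×ˢ I).filter fun w => ((w.1 * w.2 : ℕ) : ZMod N) ∈ E).card ≤ Nat.log 2 N * E.card := by
  classical
  rw [mul_comm]
  refine card_le_mul_card_image_of_maps_to (f := fun w : ℕ × ℕ => ((w.1 * w.2 : ℕ) : ZMod N))
    (fun w hw => (mem_filter.1 hw).2) _ ?_ |>.trans (le_of_eq (mul_comm _ _)) |>.trans le_rfl
  intro x _
  have hsub : ∀ w ∈ (((Q ×ˢ I).filter fun w => ((w.1 * w.2 : ℕ) : ZMod N) ∈ E).filter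
      fun w => ((w.1 * w.2 : ℕ) : ZMod N) = x), w.1 * w.2 = x.val ∧ w.1 ∈ Q ∧ w.2 ∈ I := by
    intro w hw
    simp only [mem_filter, mem_product] at hw
    refine ⟨?_, hw.1.1.1, hw.1.1.2⟩
    rw [← hw.2, ZMod.val_cast_of_lt (hlt _ hw.1.1.1 _ hw.1.1.2)]
  calc _ ≤ x.val.primeFactors.card := by
        refine card_le_card_of_injOn (fun w => w.1) ?_ ?_
        · intro w hw
          obtain ⟨h1, h2, h3⟩ := hsub w hw
          have h4 := (hQ _ h2).pos
          have h5 := hI _ h3
          simp only [mem_coe, Nat.mem_primeFactors]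
          exact ⟨hQ _ h2, ⟨w.2, h1.symm⟩, by rw [← h1]; positivity⟩
        · intro w hw w' hw' h
          obtain ⟨h1, h2, _⟩ := hsub w hw
          obtain ⟨h1', _, _⟩ := hsub w' hw'
          have h4 := (hQ _ h2).pos
          simp only at h
          refine Prod.ext h ?_
          rw [← h, ← h1] at h1'
          exact (Nat.eq_of_mul_eq_mul_left h4 h1').symm
    _ ≤ Nat.log 2 x.val := card_primeFactors_le _
    _ ≤ Nat.log 2 N := Nat.log_mono_right (ZMod.val_lt x).le

end

/-- values of a real character at units -/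
theorem chi_pm {N : ℕ} (χ : DirichletCharacter ℤ N) {x : ZMod N} (hx : IsUnit x) :
    χ x = 1 ∨ χ x = -1 := Int.isUnit_iff.1 (hx.map χ)

theorem chi_zero {N : ℕ} (χ : DirichletCharacter ℤ N) {n : ℕ} (h : ¬ n.Coprime N) :
    χ (n : ZMod N) = 0 := χ.map_nonunit fun hu => h ((ZMod.isUnit_iff_coprime n N).1 hu)

theorem chi_abs {N : ℕ} (χ : DirichletCharacter ℤ N) (x : ZMod N) : |χ x| ≤ 1 := by
  by_cases hx : IsUnit x
  · rcases chi_pm χ hx with h | h <;> rw [h] <;> norm_num
  · rw [χ.map_nonunit hx]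
    norm_num

theorem toC_apply {N : ℕ} (χ : DirichletCharacter ℤ N) (x : ZMod N) :
    toC χ x = ((χ x : ℤ) : ℂ) := rfl

theorem toC_ne_one {N : ℕ} {χ : DirichletCharacter ℤ N} (h : χ ≠ 1) : toC χ ≠ 1 := by
  unfold toC
  rwa [MulChar.ringHomComp_ne_one_iff Int.cast_injective]

theorem toC_sq {N : ℕ} (χ : DirichletCharacter ℤ N) : toC χ ^ 2 = 1 := by
  refine MulChar.IsQuadratic.sq_eq_one (MulChar.IsQuadratic.comp ?_ _)
  intro x
  by_cases hx : IsUnit x
  · exact Or.inr (chi_pm χ hx)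
  · exact Or.inl (χ.map_nonunit hx)

/-- primes which divide `N` are few -/
theorem card_primes_cop (N y : ℕ) (hN : 1 ≤ N) :
    ((Icc 1 y).filter Nat.Prime).card ≤
      ((Icc 1 y).filter fun r => r.Prime ∧ r.Coprime N).card + Nat.log 2 N := by
  refine le_trans (card_le_card (t := ((Icc 1 y).filter fun r => r.Prime ∧ r.Coprime N) ∪
    N.primeFactors) ?_) ((card_union_le _ _).trans (Nat.add_le_add_left (card_primeFactors_le N) _))
  intro r hr
  obtain ⟨h1, h2⟩ := mem_filter.1 hr
  by_cases h : r.Coprime N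
  · exact mem_union_left _ (mem_filter.2 ⟨h1, h2, h⟩)
  · refine mem_union_right _ (Nat.mem_primeFactors.2 ⟨h2, ?_, by omega⟩)
    by_contra hd
    exact h ((Nat.Prime.coprime_iff_not_dvd h2).2 hd)

end Pool.Agent.H753Z.GN
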