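import Pool.Agent.H753Z.SG.Basic

/-!
Project GN: sign patterns of the Liouville function at `b` and `N - b` (or `N + b`) for a general
modulus `N`. Definitions and the statements of the tasks.
-/

set_option autoImplicit false

namespace Pool.Agent.H753Z.GN

open Finset Filter

open Pool.Agent.H753Z.SG (lam ff)

/-- the `x` such that multiplication by `r` fails to be multiplicative at the point `u * x` -/
def Er (N : ℕ) [NeZero N] (u r : ℕ) : Finset (ZMod N) :=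
  univ.filter fun x => ff N ((r : ZMod N) * ((u : ZMod N) * x)) ≠ lam r * ff N ((u : ZMod N) * x)

/-- the units -/
def Un (N : ℕ) [NeZero N] : Finset (ZMod N) := univ.filter fun x => x.val.Coprime N

/-- the units `x` with `ff (g x) ≠ s * ff x` -/
def BadU (N : ℕ) [NeZero N] (g : ZMod N) (s : ℤ) : Finset (ZMod N) :=
  (Un N).filter fun x => ff N (g * x) ≠ s * ff N x

/-- the number of units `x` with `ff (n x) ≠ lam n * ff x` -/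
def bu (N : ℕ) [NeZero N] (n : ℕ) : ℕ := (BadU N (n : ZMod N) (lam n)).card

/-- the sum of `bu` over the primes up to `Y` which do not divide `N` -/
def SBU (N : ℕ) [NeZero N] (Y : ℕ) : ℕ :=
  ∑ r ∈ (Icc 1 Y).filter (fun r => r.Prime ∧ r.Coprime N), bu N r

/-- the number of integers up to `M` coprime to `N` -/
def cop (N M : ℕ) : ℕ := ((Icc 1 M).filter fun m => m.Coprime N).card

/-- the products `u * m` with `u ∈ U`, `1 ≤ m ≤ M` hit every set of units -/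
def EquiU (N : ℕ) [NeZero N] (U : Finset ℕ) : Prop :=
  ∀ M : ℕ, (N : ℝ) ^ (51 / 100 : ℝ) ≤ M → M < N → ∀ E : Finset (ZMod N), E ⊆ Un N →
    (U.card : ℝ) * ((cop N M : ℝ) * E.card / (Nat.totient N : ℝ) -
      M * (N : ℝ) ^ (-(1 / 500) : ℝ)) ≤
      (((U ×ˢ Icc 1 M).filter fun w => ((w.1 * w.2 : ℕ) : ZMod N) ∈ E).card : ℝ)

/-- the Liouville function pretends to be the real character `χ` -/
def PretU (N : ℕ) (χ : DirichletCharacter ℤ N) : Prop :=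
  ((((Ico 1 N).filter fun n : ℕ => n.Coprime N ∧ lam n ≠ χ (n : ZMod N)).card : ℝ) ≤
    N / (Real.log N) ^ 20) ∧
  ∀ Y : ℕ, (Y : ℝ) ≤ (N : ℝ) ^ (1 / 3 : ℝ) →
    ((((Icc 1 Y).filter fun r : ℕ => r.Prime ∧ r.Coprime N ∧ χ (r : ZMod N) ≠ -1).card : ℝ) ≤
      Y / (Real.log N) ^ 20)

/-- the sum of `1 / q` over the small primes with `χ q = 1` -/
noncomputable def sig (N : ℕ) (χ : DirichletCharacter ℤ N) : ℝ :=
  ∑ q ∈ (Icc 1 ⌊(N : ℝ) ^ (32 / 100 : ℝ)⌋₊).filter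
    (fun q : ℕ => q.Prime ∧ χ (q : ZMod N) = 1), (1 : ℝ) / (q : ℝ)

/-- the complex character of a real character -/
noncomputable def toC {N : ℕ} (χ : DirichletCharacter ℤ N) : DirichletCharacter ℂ N :=
  χ.ringHomComp (Int.castRingHom ℂ)

/-- the companion of `b`: `N - b` or `N + b` -/
def comp (ς : Bool) (N b : ℕ) : ℕ := if ς then N - b else N + b

/-- the sign attached to the companion -/
def sg (ς : Bool) {N : ℕ} (χ : DirichletCharacter ℤ N) : ℤ := if ς then χ (-1) else 1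

/-- the number of occurrences of a sign pattern -/
def cnt (ς : Bool) (N : ℕ) (s t : ℤ) : ℕ :=
  ((Ico 1 N).filter fun b => lam b = s ∧ lam (comp ς N b) = t).card

/-- `χ₁` is a character modulo 1 or 8 times a Jacobi symbol with odd squarefree modulus -/
def Loc (M₀ D : ℕ) (χ₁ : DirichletCharacter ℤ (M₀ * D)) : Prop :=
  (M₀ = 1 ∨ M₀ = 8) ∧ Odd D ∧ Squarefree D ∧ ∃ ψ : DirichletCharacter ℤ M₀, ∀ n : ℕ,
    χ₁ (n : ZMod (M₀ * D)) = ψ (n : ZMod M₀) * jacobiSym (n : ℤ) D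

/-- task SIEVE: the sieve of Legendre in a progression -/
def SIEVE : Prop := ∀ N a c K : ℕ, 1 ≤ N → c.Coprime N →
  |(((range K).filter fun k => (a + c * k).Coprime N).card : ℝ) - K * (Nat.totient N : ℝ) / N| ≤
    N.divisors.card

/-- task LARGE: integers coprime to `N` with a large prime factor -/
def LARGE : Prop := ∀ᶠ N : ℕ in atTop, ∀ X z : ℕ, (N : ℝ) ^ (52 / 100 : ℝ) ≤ X →
  (X : ℝ) ≤ 2 * (N : ℝ) ^ (52 / 100 : ℝ) → (N : ℝ) ^ (48 / 100 : ℝ) ≤ 4 * z →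
  (((Icc 1 X).filter fun m => m.Coprime N ∧ ∃ r ∈ m.primeFactors, z < r).card : ℝ) ≤
    3 / 10 * cop N X

/-- task SMOG: many very smooth numbers coprime to `N` -/
def SMOG : Prop := ∃ C : ℕ, ∀ᶠ N : ℕ in atTop, ∃ U : Finset ℕ,
  (∀ u ∈ U, 1 ≤ u ∧ u < N ∧ u.Coprime N ∧
    ∀ r : ℕ, r.Prime → r ∣ u → (r : ℝ) ≤ (Real.log N) ^ C) ∧ (N : ℝ) ^ (99 / 100 : ℝ) ≤ U.card

/-- task EQAG: equidistribution -/
def EQAG : Prop := ∀ᶠ N : ℕ in atTop, ∀ [NeZero N], ∀ U : Finset ℕ,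
  (∀ u ∈ U, 1 ≤ u ∧ u < N ∧ u.Coprime N) → (N : ℝ) ^ (99 / 100 : ℝ) ≤ U.card → EquiU N U

/-- task DIG: few residues avoid all the small multiples -/
def DIG : Prop := ∀ (N : ℕ) [NeZero N] (u y w J : ℕ), 1 ≤ u → 2 ≤ y → 8 * y ^ 2 ≤ 2 ^ w →
  ∀ S : Finset (ZMod N), (∀ x ∈ S, ∀ j v : ℕ, j < J → 1 ≤ v → v ≤ y →
    N ≤ 2 * y * (((2 ^ (w * j) * v * u : ℕ) : ZMod N) * x).val) →
    (S.card : ℝ) ≤ (1 - 1 / (128 * Real.log (2 * y))) ^ J * (N + u * 2 ^ (w * J))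

/-- task ST1G: small multipliers -/
def ST1G : Prop := ∀ A C : ℕ, ∃ C' : ℕ, ∀ᶠ N : ℕ in atTop, ∀ [NeZero N],
  (∀ u : ℕ, 1 ≤ u → (u : ℝ) ≤ Real.exp ((Real.log (Real.log N)) ^ 6 / 2) →
    ((Er N u 2).card : ℝ) ≤ N * Real.exp (-(C' * (Real.log (Real.log N)) ^ 2))) →
  ∀ r : ℕ, 1 ≤ r → (r : ℝ) ≤ (Real.log N) ^ A →
    ((Er N 1 r).card : ℝ) ≤ N * Real.exp (-(C * (Real.log (Real.log N)) ^ 2))

/-- task BOOTG: the bootstrap -/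
def BOOTG : Prop := ∃ C : ℕ, ∀ᶠ N : ℕ in atTop, ∀ [NeZero N], ∀ U : Finset ℕ, U.Nonempty →
  (∀ u ∈ U, 1 ≤ u ∧ u < N ∧ u.Coprime N) → EquiU N U → ∀ ε : ℝ,
  (N : ℝ) ^ (-(1 / 500) : ℝ) ≤ ε → (∀ u ∈ U, (bu N u : ℝ) ≤ ε * N) →
  (∀ r : ℕ, r.Prime → r.Coprime N → (r : ℝ) ≤ (Real.log N) ^ 8 → (bu N r : ℝ) ≤ ε * N) →
  ∀ Y : ℕ, (Y : ℝ) ≤ (N : ℝ) ^ (48 / 100 : ℝ) →
    (SBU N Y : ℝ) ≤ ε * Real.exp (C * (Real.log (Real.log N)) ^ 2) * N * Y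

/-- task LING: linearity -/
def LING : Prop := ∀ᶠ N : ℕ in atTop, ∀ [NeZero N], ∀ U : Finset ℕ, U.Nonempty →
  (∀ u ∈ U, 1 ≤ u ∧ u < N ∧ u.Coprime N) → EquiU N U →
  (∀ u ∈ U, (bu N u : ℝ) ≤ N / (Real.log N) ^ 60) →
  (∀ Y : ℕ, (Y : ℝ) ≤ (N : ℝ) ^ (48 / 100 : ℝ) → (SBU N Y : ℝ) ≤ N / (Real.log N) ^ 60 * Y) →
  ∃ χ : DirichletCharacter ℤ N, PretU N χ

/-- task CLS: classification of the real characters -/
def CLS : Prop := ∀ (N : ℕ) [NeZero N] (χ : DirichletCharacter ℤ N), ∃ (M₀ D : ℕ)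
  (χ₁ : DirichletCharacter ℤ (M₀ * D)), Loc M₀ D χ₁ ∧ D ∣ N ∧ (M₀ = 8 → 2 ∣ N) ∧
    ∀ n : ℕ, n.Coprime N → χ (n : ZMod N) = χ₁ (n : ZMod (M₀ * D))

/-- task MOMG: high moments of short sums of a real character -/
def MOMG : Prop := ∀ r : ℕ, 1 ≤ r → ∀ κ : ℝ, 0 < κ → ∃ C : ℝ, 0 ≤ C ∧ ∀ (M₀ D : ℕ)
  [NeZero (M₀ * D)] (χ₁ : DirichletCharacter ℤ (M₀ * D)), Loc M₀ D χ₁ → ∀ B : ℕ,
    ∑ x : ZMod (M₀ * D), ‖∑ b ∈ range B, toC χ₁ (x + (b : ZMod (M₀ * D)))‖ ^ (2 * r) ≤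
      (r : ℝ) ^ (2 * r) * (B : ℝ) ^ r * (M₀ * D : ℕ) +
        C * ((M₀ * D : ℕ) : ℝ) ^ κ * (B : ℝ) ^ (2 * r) * Real.sqrt (M₀ * D : ℕ)

/-- task BUR1: the Burgess bound for the characters of `Loc` -/
def BUR1 : Prop := ∃ δ : ℝ, 0 < δ ∧ ∃ M₁ : ℕ, ∀ (M₀ D : ℕ) [NeZero (M₀ * D)]
  (χ₁ : DirichletCharacter ℤ (M₀ * D)), Loc M₀ D χ₁ → χ₁ ≠ 1 → M₁ ≤ M₀ * D → ∀ X : ℕ,
    ((M₀ * D : ℕ) : ℝ) ^ (28 / 100 : ℝ) ≤ X →
    |((∑ n ∈ Icc 1 X, χ₁ (n : ZMod (M₀ * D)) : ℤ) : ℝ)| ≤ X * ((M₀ * D : ℕ) : ℝ) ^ (-δ)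

/-- task BURG: the Burgess bound for all real characters -/
def BURG : Prop := ∃ δ : ℝ, 0 < δ ∧ ∀ᶠ N : ℕ in atTop, ∀ χ : DirichletCharacter ℤ N, χ ≠ 1 →
  ∀ X : ℕ, (N : ℝ) ^ (3 / 10 : ℝ) ≤ X →
    |((∑ n ∈ Icc 1 X, χ (n : ZMod N) : ℤ) : ℝ)| ≤ X * (N : ℝ) ^ (-δ)

/-- task SPLG: many small split primes -/
def SPLG : Prop := ∀ᶠ N : ℕ in atTop, ∀ [NeZero N], ∀ χ : DirichletCharacter ℤ N, χ ≠ 1 →
  ‖(toC χ).LFunction 1‖ ≤ (Real.log N) ^ 2 * sig N χ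

/-- task AVG: short sums along progressions on average -/
def AVG : Prop := ∀ᶠ N : ℕ in atTop, ∀ χ : DirichletCharacter ℤ N, χ ≠ 1 → ∀ c X V : ℕ,
  c.Coprime N → (N : ℝ) ^ (669 / 1000 : ℝ) ≤ X → X ≤ N → (N : ℝ) ^ (345 / 1000 : ℝ) ≤ V →
  (V : ℝ) ≤ 2 * (N : ℝ) ^ (345 / 1000 : ℝ) →
    ∑ x ∈ Icc 1 X, |∑ v ∈ range V, ((χ ((x + c * v : ℕ) : ZMod N) : ℤ) : ℝ)| ≤
      X * V * (N : ℝ) ^ (-(1 / 1000) : ℝ)

/-- task ENDQ: the end game for one split prime -/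
def ENDQ : Prop := ∀ᶠ N : ℕ in atTop, ∀ χ : DirichletCharacter ℤ N, PretU N χ →
  ∀ (ς : Bool) (τ : ℤ), (τ = 1 ∨ τ = -1) → ∀ q : ℕ, q.Prime → (q : ℝ) ≤ (N : ℝ) ^ (32 / 100 : ℝ) →
    χ (q : ZMod N) = 1 → (N : ℝ) / (q * (Real.log N) ^ 4) ≤
      (((Ico 1 N).filter fun b => q ∣ comp ς N b ∧ lam b = -τ ∧
        lam (comp ς N b) = sg ς χ * τ).card : ℝ)

end Pool.Agent.H753Z.GN
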